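import Mathlib

namespace Pool.Agent.Results.MP_1c213c_co.CdCoind

open Finset

/-- Common neighbours of a vertex set. -/
def CN {V : Type} (G : SimpleGraph V) (A : Set V) : Set V := {v | ∀ a ∈ A, G.Adj a v}

/-- `A' ⊎ A''` is a simplex of the box complex `B(G)`. -/
def IsBoxSimplex {V : Type} (G : SimpleGraph V) (A' A'' : Set V) : Prop :=
  Disjoint A' A'' ∧ (∀ a ∈ A', ∀ b ∈ A'', G.Adj a b) ∧ (CN G A').Nonempty ∧ (CN G A'').Nonempty

/-- Geometric realisation of `B(G)`: convex weights on the vertices `+v = (true, v)`,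
`-v = (false, v)` whose support is a simplex; topology induced from `Bool × V → ℝ`. -/
def Box {V : Type} [Fintype V] (G : SimpleGraph V) : Set (Bool × V → ℝ) :=
  {w | (∀ x, 0 ≤ w x) ∧ ∑ x, w x = 1 ∧
    IsBoxSimplex G {v | w (true, v) ≠ 0} {v | w (false, v) ≠ 0}}

/-- The unit sphere `S^d` in `ℝ^(d+1)`. -/
def Sph (d : ℕ) : Set (Fin (d + 1) → ℝ) := {x | ∑ i, x i ^ 2 = 1}

/-- There is a continuous map `S^d → |B(G)|` carrying the antipodal map to `+v ↔ -v`. -/
def HasEquivMap {V : Type} [Fintype V] (G : SimpleGraph V) (d : ℕ) : Prop :=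
  ∃ f : (Fin (d + 1) → ℝ) → Bool × V → ℝ, ContinuousOn f (Sph d) ∧ Set.MapsTo f (Sph d) (Box G) ∧
    ∀ x ∈ Sph d, ∀ b v, f (-x) (b, v) = f x (!b, v)

/-- `coind(B(G))`: the largest such `d`; `-1` if there is none, `+∞` if unbounded. -/
noncomputable def coindBox {V : Type} [Fintype V] (G : SimpleGraph V) : EReal :=
  sSup ({-1} ∪ {z | ∃ d : ℕ, HasEquivMap G d ∧ z = (d : EReal)})

/-- After deleting `U`, the hypergraph with edge set `E` is 2-colourable. -/
def ColorableOff {W : Type} (E : Set (Finset W)) (U : Finset W) : Prop :=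
  ∃ c : W → Bool, ∀ e ∈ E, Disjoint e U → ¬ ∃ b, ∀ i ∈ e, c i = b

/-- The 2-colourability defect. -/
noncomputable def cd {W : Type} (E : Set (Finset W)) : ℕ :=
  sInf {k | ∃ U : Finset W, U.card = k ∧ ColorableOff E U}

section proof

variable {V W : Type} [Fintype V] [Fintype W]

noncomputable def gg (d : ℕ) (p : W → ℝ) (u : (Fin (d + 1) → ℝ)) (i : W) : ℝ :=
  ∑ j : Fin (d + 1), u j * p i ^ ((j : ℕ) + 1)

omit [Fintype W] in
lemma gg_neg (d : ℕ) (p : W → ℝ) (u : (Fin (d + 1) → ℝ)) (i : W) :
    gg d p (-u) i = - gg d p u i := by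
  simp [gg, Finset.sum_neg_distrib]

omit [Fintype W] in
lemma gg_cont (d : ℕ) (p : W → ℝ) (i : W) : Continuous fun u => gg d p u i := by
  unfold gg
  fun_prop

open Classical in
lemma card_zero (d : ℕ) (p : W → ℝ) (hp : Function.Injective p)
    (u : (Fin (d + 1) → ℝ)) (hu : u ≠ 0) (s : ℝ) :
    (univ.filter fun i => gg d p u i = s).card ≤ d + 1 := by
  set P : Polynomial ℝ :=
    (∑ j : Fin (d + 1), Polynomial.monomial ((j : ℕ) + 1) (u j)) - Polynomial.C s with hP
  have hdeg : P.natDegree ≤ d + 1 := by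
    refine (Polynomial.natDegree_sub_le _ _).trans (max_le ?_ (by simp))
    refine Polynomial.natDegree_sum_le_of_forall_le _ _ fun j _ => ?_
    refine (Polynomial.natDegree_monomial_le _).trans ?_
    have := j.2
    omega
  have hne : P ≠ 0 := by
    intro h0
    apply hu
    ext j
    have : P.coeff ((j : ℕ) + 1) = u j := by
      rw [hP, Polynomial.coeff_sub, Polynomial.finsetSum_coeff, Polynomial.coeff_C_succ, sub_zero,
        Finset.sum_eq_single j]
      · simp
      · intro k _ hk
        rw [Polynomial.coeff_monomial, if_neg]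
        intro h
        apply hk
        ext
        omega
      · simp
    rw [h0] at this
    simpa using this.symm
  have hsub : (univ.filter fun i => gg d p u i = s).image p ⊆ P.roots.toFinset := by
    intro x hx
    obtain ⟨i, hi, rfl⟩ := Finset.mem_image.1 hx
    rw [Multiset.mem_toFinset, Polynomial.mem_roots hne, Polynomial.IsRoot.def, hP]
    have := (Finset.mem_filter.1 hi).2
    simp only [Polynomial.eval_sub, Polynomial.eval_finsetSum, Polynomial.eval_monomial,
      Polynomial.eval_C]
    unfold gg at this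
    linarith
  calc _ = ((univ.filter fun i => gg d p u i = s).image p).card :=
        (Finset.card_image_of_injective _ hp).symm
    _ ≤ P.roots.toFinset.card := Finset.card_le_card hsub
    _ ≤ P.roots.card := Multiset.toFinset_card_le _
    _ ≤ P.natDegree := Polynomial.card_roots' _
    _ ≤ d + 1 := hdeg

lemma main (G : SimpleGraph V) (f : V → Finset W) (hne : ∀ v, (f v).Nonempty)
    (hadj : ∀ u v, u ≠ v → Disjoint (f u) (f v) → G.Adj u v) (d : ℕ)
    (hc : ∀ U : Finset W, U.card ≤ d + 1 → ¬ ColorableOff (Set.range f) U) :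
    HasEquivMap G d := by
  classical
  obtain ⟨p, hp⟩ : ∃ p : W → ℝ, Function.Injective p :=
    ⟨fun i => ((Fintype.equivFin W i : ℕ) : ℝ), fun a b h => by
      have : (Fintype.equivFin W a : ℕ) = Fintype.equivFin W b := Nat.cast_injective (R := ℝ) h
      exact (Fintype.equivFin W).injective (Fin.ext this)⟩
  have hV : (univ : Finset V).Nonempty := by
    by_contra h
    apply hc ∅ (by simp)
    refine ⟨fun _ => true, ?_⟩
    rintro e ⟨v, rfl⟩
    exact absurd ⟨v, mem_univ v⟩ h
  let m : V → (Fin (d + 1) → ℝ) → ℝ := fun v u => (f v).inf' (hne v) (gg d p u)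
  let A : (Fin (d + 1) → ℝ) → ℝ := fun u => univ.sup' hV fun v => m v u
  let s : (Fin (d + 1) → ℝ) → ℝ := fun u => (A u - A (-u)) / 2
  let φ : V → (Fin (d + 1) → ℝ) → ℝ := fun v u => max 0 (m v u - s u)
  have hm : ∀ v, Continuous (m v) := fun v =>
    Continuous.finset_inf'_apply (hne v) fun i _ => gg_cont d p i
  have hA : Continuous A := Continuous.finset_sup'_apply hV fun v _ => hm v
  have hs : Continuous s := (hA.sub (hA.comp continuous_neg)).div_const 2
  have hφ : ∀ v, Continuous (φ v) := fun v => continuous_const.max ((hm v).sub hs)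
  have hsneg : ∀ u, s (-u) = - s u := fun u => by simp only [s, neg_neg]; ring
  have hφ0 : ∀ v u, 0 ≤ φ v u := fun v u => le_max_left _ _
  have hφpos : ∀ v u, φ v u ≠ 0 → ∀ i ∈ f v, s u < gg d p u i := by
    intro v u h i hi
    have h1 : s u < m v u := by
      by_contra h2
      apply h
      exact max_eq_left (by linarith)
    exact h1.trans_le (Finset.inf'_le _ hi)
  have hsum : ∀ u, u ≠ 0 → 0 < A u + A (-u) := by
    intro u hu
    by_contra hle
    apply hc _ (card_zero d p hp u hu (s u))
    refine ⟨fun i => decide (s u < gg d p u i), ?_⟩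
    rintro e ⟨v, rfl⟩ hdis ⟨b, hb⟩
    cases b
    · have h1 : - s u < m v (-u) := by
        refine (Finset.lt_inf'_iff _).2 fun i hi => ?_
        have h2 : ¬ s u < gg d p u i := by simpa using hb i hi
        have h3 : gg d p u i ≠ s u := fun h =>
          Finset.disjoint_left.1 hdis hi (Finset.mem_filter.2 ⟨mem_univ _, h⟩)
        rw [gg_neg]
        have := lt_of_le_of_ne (not_lt.1 h2) h3
        linarith
      have h2 : m v (-u) ≤ A (-u) := Finset.le_sup' (fun v => m v (-u)) (mem_univ v)
      simp only [s] at h1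
      linarith
    · have h1 : s u < m v u := by
        refine (Finset.lt_inf'_iff _).2 fun i hi => ?_
        simpa using hb i hi
      have h2 : m v u ≤ A u := Finset.le_sup' (fun v => m v u) (mem_univ v)
      simp only [s] at h1
      linarith
  have hex : ∀ u, u ≠ 0 → ∃ v, φ v u ≠ 0 := by
    intro u hu
    obtain ⟨v, -, hv⟩ := Finset.exists_mem_eq_sup' hV fun v => m v u
    refine ⟨v, ne_of_gt (lt_max_of_lt_right ?_)⟩
    have := hsum u hu
    have h2 : A u = m v u := hv
    simp only [s]
    linarith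
  let T : (Fin (d + 1) → ℝ) → ℝ := fun u => ∑ v, φ v u + ∑ v, φ v (-u)
  have hT : Continuous T :=
    (continuous_finsetSum _ fun v _ => hφ v).add
      (continuous_finsetSum _ fun v _ => (hφ v).comp continuous_neg)
  have hTpos : ∀ u, u ≠ 0 → 0 < T u := by
    intro u hu
    obtain ⟨v, hv⟩ := hex u hu
    have h1 : 0 < ∑ v, φ v u :=
      Finset.sum_pos' (fun v _ => hφ0 v u) ⟨v, mem_univ v, lt_of_le_of_ne (hφ0 v u) hv.symm⟩
    have h2 : 0 ≤ ∑ v, φ v (-u) := Finset.sum_nonneg fun v _ => hφ0 v _
    simp only [T]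
    linarith
  have hTneg : ∀ u, T (-u) = T u := fun u => by simp only [T, neg_neg]; ring
  have hcross : ∀ u a b, φ a u ≠ 0 → φ b (-u) ≠ 0 → G.Adj a b := by
    intro u a b ha hb
    have hd : Disjoint (f a) (f b) := by
      refine Finset.disjoint_left.2 fun i hia hib => ?_
      have h1 := hφpos a u ha i hia
      have h2 := hφpos b (-u) hb i hib
      rw [hsneg, gg_neg] at h2
      linarith
    refine hadj a b ?_ hd
    rintro rfl
    obtain ⟨i, hi⟩ := hne a
    exact Finset.disjoint_left.1 hd hi hi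
  have hx0 : ∀ x ∈ Sph d, x ≠ 0 := by
    rintro x hx rfl
    simp [Sph] at hx
  let w : (Fin (d + 1) → ℝ) → Bool × V → ℝ :=
    fun x y => (if y.1 then φ y.2 x else φ y.2 (-x)) / T x
  have hw : ∀ x ∈ Sph d, w x ∈ Box G := by
    intro x hx
    have hTx := hTpos x (hx0 x hx)
    have e1 : ∀ v, w x (true, v) ≠ 0 ↔ φ v x ≠ 0 := fun v => by
      simp [w, hTx.ne']
    have e2 : ∀ v, w x (false, v) ≠ 0 ↔ φ v (-x) ≠ 0 := fun v => by
      simp [w, hTx.ne']
    refine ⟨fun y => div_nonneg (by split_ifs <;> exact hφ0 _ _) hTx.le, ?_, ?_, ?_, ?_, ?_⟩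
    · simp only [w]
      rw [← Finset.sum_div, div_eq_one_iff_eq hTx.ne', Fintype.sum_prod_type]
      simp [T]
    · refine Set.disjoint_left.2 fun a ha hb => ?_
      exact (hcross x a a ((e1 a).1 ha) ((e2 a).1 hb)).ne rfl
    · intro a ha b hb
      exact hcross x a b ((e1 a).1 ha) ((e2 b).1 hb)
    · obtain ⟨b, hb⟩ := hex (-x) (neg_ne_zero.2 (hx0 x hx))
      exact ⟨b, fun a ha => hcross x a b ((e1 a).1 ha) hb⟩
    · obtain ⟨a, ha⟩ := hex x (hx0 x hx)
      exact ⟨a, fun b hb => (hcross x a b ha ((e2 b).1 hb)).symm⟩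
  have hwc : ContinuousOn w (Sph d) := by
    refine continuousOn_pi.2 fun y => ContinuousOn.div ?_ hT.continuousOn
      fun x hx => (hTpos x (hx0 x hx)).ne'
    split_ifs
    · exact (hφ _).continuousOn
    · exact ((hφ _).comp continuous_neg).continuousOn
  refine ⟨w, hwc, hw, fun x _ b v => ?_⟩
  cases b <;> simp [w, hTneg]

end proof

/-- For every finite graph `G` and every Kneser representation (a finite hypergraph with nonempty
edges, edge set `E`, and a map `f` of `V(G)` onto `E`, in particular a bijection, such that distinct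
vertices are adjacent iff their images are disjoint), `cd ≤ coind(B(G)) + 2`. -/
theorem result (V W : Type) [Fintype V] [Fintype W] (G : SimpleGraph V) (E : Set (Finset W))
    (hE : ∀ e ∈ E, e.Nonempty) (f : V → Finset W) (hf : Set.range f = E)
    (hadj : ∀ u v, u ≠ v → (G.Adj u v ↔ Disjoint (f u) (f v))) :
    (cd E : EReal) ≤ coindBox G + 2 := by
  subst hf
  have h1 : (-1 : EReal) ≤ coindBox G := le_sSup (Or.inl rfl)
  rcases Nat.lt_or_ge (cd (Set.range f)) 2 with h | h
  · have h2 : (cd (Set.range f) : EReal) ≤ 1 := by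
      have : cd (Set.range f) ≤ 1 := by omega
      exact_mod_cast this
    calc _ ≤ (1 : EReal) := h2
      _ = -1 + 2 := by
        have : ((1 : ℝ) : EReal) = ((-1 + 2 : ℝ) : EReal) := by norm_num
        rw [EReal.coe_add, EReal.coe_neg] at this
        exact this
      _ ≤ _ := add_le_add h1 le_rfl
  · obtain ⟨d, hd⟩ := Nat.exists_eq_add_of_le' h
    have hm : HasEquivMap G d := by
      refine main G f (fun v => hE _ ⟨v, rfl⟩) (fun u v h h' => (hadj u v h).2 h') d ?_
      intro U hU hcol
      have : cd (Set.range f) ≤ U.card := Nat.sInf_le ⟨U, rfl, hcol⟩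
      omega
    have h2 : (d : EReal) ≤ coindBox G := le_sSup (Or.inr ⟨d, hm, rfl⟩)
    rw [hd]
    push_cast
    exact add_le_add h2 le_rfl

end Pool.Agent.Results.MP_1c213c_co.CdCoind
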